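import Pool.Agent.H19.GSPres

set_option autoImplicit false

namespace Pool.Agent.Results.MP_cf54d7_al.Multiples

/-- There is `K > 0` such that `M_n = ⟨x, y ∣ x = [x,ₙ y], y = [y,ₙ x]⟩` is infinite for every
multiple `n` of `K`; in particular `M_n` is infinite for infinitely many `n`. -/
theorem result :
    ∃ K : ℕ, 0 < K ∧ ∀ n : ℕ, K ∣ n →
      Infinite (PresentedGroup
        ({(FreeGroup.of (0 : Fin 2))⁻¹ *
            Nat.iterate (fun w : FreeGroup (Fin 2) =>
              w⁻¹ * (FreeGroup.of (1 : Fin 2))⁻¹ * w * FreeGroup.of (1 : Fin 2)) n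
              (FreeGroup.of (0 : Fin 2)),
          (FreeGroup.of (1 : Fin 2))⁻¹ *
            Nat.iterate (fun w : FreeGroup (Fin 2) =>
              w⁻¹ * (FreeGroup.of (0 : Fin 2))⁻¹ * w * FreeGroup.of (0 : Fin 2)) n
              (FreeGroup.of (1 : Fin 2))} : Set (FreeGroup (Fin 2)))) := by
  refine ⟨H19.GS.per, H19.GS.per_pos, fun n hn => ?_⟩
  refine H19.GS.pres_infinite _ _ _ hn hn fun E _ φ => ?_
  simp only [Set.mem_insert_iff, Set.mem_singleton_iff, forall_eq_or_imp, forall_eq, map_mul,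
    map_inv, inv_mul_eq_one]
  exact and_congr eq_comm eq_comm

end Pool.Agent.Results.MP_cf54d7_al.Multiples
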